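import Pool.Agent.H30.UfDiv

open Pool.Agent.H30.UfDiv

theorem Pool.Agent.Results.MP_b27926_lc.Counter.result :
    ∃ G : Ultrafilter ℕ+, Mini DivM G ∧ ¬ Mini Fe G :=
  ⟨G, G_min, G_not_min⟩
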